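import Pool.Agent.Helper88.RF.Glue
import Pool.Agent.Helper88.RC.LargeV

/-!
# MP_47cd0b: the dense case in lattices from the dense case on cones
-/

set_option autoImplicit false

namespace Pool.Agent.Helper88.RC

open Finset Pool.Agent.Helper28.BPack Pool.Agent.Helper61.Motz Pool.Agent.Helper38.Thick H20SW

open Classical in
/-- From cones to lattices (row D6). -/
def OfCones (L : Type) [Lattice L] [BoundedOrder L] [Finite L] : Prop :=
  ∀ {A : Finset L}, (∀ a ∈ A, IsAtom a) → rk (A.sup id) = 4 → ∀ {Q : L}, rk Q = 3 →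
    (∀ H, rk H = 3 → (A.filter (· ≤ H)).card ≤ (A.filter (· ≤ Q)).card) →
    ∀ {s : ℕ}, (∀ g, rk g = 2 → (A.filter (· ≤ g)).card ≤ s) →
    (∀ (Y U E : Type) [Fintype Y] [Fintype U] [Fintype E] (C : Cone Y U E L L L), C.s = s →
      Fintype.card Y = (A.filter (· ≤ Q)).card → C.Good) → Crit4 A

theorem dense_of_cones {L : Type} [Lattice L] [BoundedOrder L] [Finite L]
    (hO : OfCones L)
    (hG : ∀ (Y U E : Type) [Fintype Y] [Fintype U] [Fintype E] (C : Cone Y U E L L L) {a : ℕ},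
      3000 ≤ a → a ^ 40 ≤ Fintype.card Y → Fintype.card Y ≤ 2 * a ^ 40 → C.s ≤ a ^ 34 → C.Good) :
    Dense 3000 L := by
  intro A hA hr Q hQ hmax a ha h1 h2 h3
  refine hO hA hr hQ hmax (s := a ^ 31) h3 ?_
  intro Y U E _ _ _ C hs hY
  refine hG Y U E C ha (by rw [hY]; exact h1) (by rw [hY]; exact h2) ?_
  rw [hs]
  exact Nat.pow_le_pow_right (by omega) (by norm_num)

end Pool.Agent.Helper88.RC
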