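import Pool.Agent.Helper88.RF.Dense
import Pool.Agent.Helper50.RF.D4
import Pool.Agent.Helper48.RF.Def
import Pool.Agent.Helper86.SW.Bad
import Pool.Agent.Helper68.RF.Inst
import Pool.Agent.Helper20.SW.Mixed
import Pool.Agent.Helper20.SW.Num

/-!
# MP_47cd0b: the rank four theorem from case (b) on cones
-/

set_option autoImplicit false

namespace Pool.Agent.Helper88.RC

open Finset Pool.Agent.Helper28.BPack Pool.Agent.Helper61.Motz Pool.Agent.Helper38.Thick H20SW

theorem caseA (Y U E G P R : Type) [Fintype Y] [Fintype U] [Fintype E] :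
    Cone.CaseA Y U E G P R := by
  intro C a ha hN hN2 hs J α β hJ hlarge
  exact Pool.Agent.Helper50.RF.case_a C ha hN hs hJ
    (fun z => Pool.Agent.Helper48.RF.def_sum C ha hN hN2 hs hJ z)
    (fun z l hl => C.bad_pl J z l hl) hlarge

theorem dense_of_caseB {L : Type} [Lattice L] [BoundedOrder L] [Finite L]
    [IsUpperModularLattice L]
    (hB : ∀ (Y U E : Type) [Fintype Y] [Fintype U] [Fintype E], Cone.CaseB Y U E L L L) :
    Dense 3000 L := by
  refine dense_of_cones ?_ ?_
  · intro A hA hr Q hQ hmax s hs D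
    exact Pool.Agent.Helper68.RF.crit4_of_cones hA hr hQ hmax hs D
  · intro Y U E _ _ _ C a ha hN hN2 hs
    exact C.good_of_cases (caseA Y U E L L L) (hB Y U E) ha hN hN2 hs

/-- The final theorem from case (b) alone. -/
theorem packing_of_caseB {L : Type} [Lattice L] [BoundedOrder L] [Fintype L]
    [IsUpperModularLattice L]
    (hB : ∀ (Y U E : Type) [Fintype Y] [Fintype U] [Fintype E], Cone.CaseB Y U E L L L)
    (hat : ∀ x : L, ∃ s : Finset L, (∀ a ∈ s, IsAtom a) ∧ s.sup id = x)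
    (hr : Order.height (⊤ : L) = 4) (hn : 3 * 3000 ^ 60 ≤ {a : L | IsAtom a}.ncard) :
    ∃ (t : ℕ) (n : Fin t → ℕ) (φ : ∀ i : Fin t, Set (Fin (n i)) → L),
      (∀ i, Function.Injective (φ i)) ∧
      (∀ i (a b : Set (Fin (n i))), a ⋖ b → φ i a ⋖ φ i b) ∧
      (∀ i, Order.height (⊤ : L) ≤ Order.height (φ i ⊥) + Order.height (φ i ⊤)) ∧
      (∀ x : L, ∃! p : (Σ i : Fin t, Set (Fin (n i))), φ p.1 p.2 = x) :=
  packing_of_dense (by norm_num) (dense_of_caseB hB) hat hr hn

end Pool.Agent.Helper88.RC
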