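import Pool.Agent.Helper20.SW.Cone

/-!
# MP_47cd0b: existence of a maximal family of thin pairs (row D2a)
-/

set_option autoImplicit false

namespace H20SW

open Finset Classical

namespace Cone

variable {Y U E G P R : Type} [Fintype Y] [Fintype U] [Fintype E]

/-- a family without the maximality -/
def PreFam (C : Cone Y U E G P R) (p D : ℕ) (J : Finset E) (a b : E → Y) : Prop :=
  (∀ l ∈ J, a l ≠ b l) ∧ (∀ l ∈ J, C.on (a l) l) ∧ (∀ l ∈ J, C.on (b l) l) ∧
    (∀ l ∈ J, C.tl l < p) ∧ ∀ y, dg J a b y ≤ D

theorem exists_fam (C : Cone Y U E G P R) (p D : ℕ) : ∃ J a b, C.Fam p D J a b := by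
  -- some functions
  have hfun : Nonempty (E → Y) := by
    choose x _ _ using C.two
    exact ⟨x⟩
  obtain ⟨f⟩ := hfun
  -- the sizes of the families
  have hex : ∃ m, ∃ J : Finset E, ∃ a b : E → Y, C.PreFam p D J a b ∧ J.card = m :=
    ⟨0, ∅, f, f, ⟨by simp, by simp, by simp, by simp, fun y => by simp [dg]⟩, card_empty⟩
  have hbd : ∀ m, (∃ J : Finset E, ∃ a b : E → Y, C.PreFam p D J a b ∧ J.card = m) →
      m ≤ Fintype.card E := by
    rintro m ⟨J, a, b, -, rfl⟩
    exact card_le_univ J
  set Q : ℕ → Prop := fun m => ∃ J : Finset E, ∃ a b : E → Y, C.PreFam p D J a b ∧ J.card = m with hQ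
  obtain ⟨m0, hm0⟩ := hex
  set M := Nat.findGreatest Q (Fintype.card E) with hM
  have hQM : Q M := Nat.findGreatest_spec (P := Q) (hbd m0 hm0) hm0
  obtain ⟨J, a, b, ⟨h1, h2, h3, h4, h5⟩, hJ⟩ := hQM
  refine ⟨J, a, b, ⟨h1, h2, h3, h4, h5, ?_⟩⟩
  intro l hl hthin x y hxy hx hy
  by_contra hcon
  push Not at hcon
  obtain ⟨hcx, hcy⟩ := hcon
  have hdx : dg J a b x < D := lt_of_le_of_ne (h5 x) hcx
  have hdy : dg J a b y < D := lt_of_le_of_ne (h5 y) hcy
  -- the larger family
  have hne : ∀ k ∈ J, k ≠ l := fun k hk h => hl (h ▸ hk)
  have hQ' : Q (M + 1) := by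
    refine ⟨insert l J, Function.update a l x, Function.update b l y, ⟨?_, ?_, ?_, ?_, ?_⟩, ?_⟩
    · intro k hk
      rcases mem_insert.mp hk with rfl | hk
      · rw [Function.update_self, Function.update_self]
        exact hxy
      · rw [Function.update_of_ne (hne k hk), Function.update_of_ne (hne k hk)]
        exact h1 k hk
    · intro k hk
      rcases mem_insert.mp hk with rfl | hk
      · rw [Function.update_self]
        exact hx
      · rw [Function.update_of_ne (hne k hk)]
        exact h2 k hk
    · intro k hk
      rcases mem_insert.mp hk with rfl | hk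
      · rw [Function.update_self]
        exact hy
      · rw [Function.update_of_ne (hne k hk)]
        exact h3 k hk
    · intro k hk
      rcases mem_insert.mp hk with rfl | hk
      · exact hthin
      · exact h4 k hk
    · intro z
      have hsub : (insert l J).filter (fun k => Function.update a l x k = z ∨
          Function.update b l y k = z) ⊆ (J.filter (fun k => a k = z ∨ b k = z)) ∪
          (if z = x ∨ z = y then {l} else ∅) := by
        intro k hk
        obtain ⟨hk1, hk2⟩ := mem_filter.mp hk
        rcases mem_insert.mp hk1 with rfl | hk1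
        · rw [Function.update_self, Function.update_self] at hk2
          rw [mem_union]
          right
          rw [if_pos (by rcases hk2 with h | h; exacts [Or.inl h.symm, Or.inr h.symm])]
          exact mem_singleton_self _
        · rw [Function.update_of_ne (hne k hk1), Function.update_of_ne (hne k hk1)] at hk2
          exact mem_union_left _ (mem_filter.mpr ⟨hk1, hk2⟩)
      have hc := (card_le_card hsub).trans (card_union_le _ _)
      unfold dg
      unfold dg at hdx hdy h5
      by_cases hz : z = x ∨ z = y
      · rw [if_pos hz, card_singleton] at hc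
        have hz' : (J.filter (fun k => a k = z ∨ b k = z)).card < D := by
          rcases hz with rfl | rfl
          · exact hdx
          · exact hdy
        omega
      · rw [if_neg hz, card_empty] at hc
        have := h5 z
        omega
    · rw [card_insert_of_notMem hl, hJ]
  have h6 : M + 1 ≤ M := Nat.le_findGreatest (hbd _ hQ') hQ'
  omega

end Cone

end H20SW
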