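import Pool.Agent.Helper88.RF.Chain
import Pool.Agent.Helper50.RF.D5

/-!
# MP_47cd0b: every geometric lattice of rank four with at least `3 * 3000 ^ 60` atoms
-/

set_option autoImplicit false

namespace Pool.Agent.Helper88.RC

open Finset Pool.Agent.Helper28.BPack Pool.Agent.Helper61.Motz Pool.Agent.Helper38.Thick H20SW

theorem caseB (Y U E G P R : Type) [Fintype Y] [Fintype U] [Fintype E] :
    Cone.CaseB Y U E G P R := by
  intro C a ha hN hN2 hs J α β hJ hsmall
  exact Pool.Agent.Helper50.RF.case_b C ha hN hN2 hs hJ hsmall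

theorem dense {L : Type} [Lattice L] [BoundedOrder L] [Finite L] [IsUpperModularLattice L] :
    Dense 3000 L :=
  dense_of_caseB (fun Y U E _ _ _ => caseB Y U E L L L)

/-- **Rank four.** -/
theorem packing_rank_four {L : Type} [Lattice L] [BoundedOrder L] [Fintype L]
    [IsUpperModularLattice L]
    (hat : ∀ x : L, ∃ s : Finset L, (∀ a ∈ s, IsAtom a) ∧ s.sup id = x)
    (hr : Order.height (⊤ : L) = 4) (hn : 3 * 3000 ^ 60 ≤ {a : L | IsAtom a}.ncard) :
    ∃ (t : ℕ) (n : Fin t → ℕ) (φ : ∀ i : Fin t, Set (Fin (n i)) → L),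
      (∀ i, Function.Injective (φ i)) ∧
      (∀ i (a b : Set (Fin (n i))), a ⋖ b → φ i a ⋖ φ i b) ∧
      (∀ i, Order.height (⊤ : L) ≤ Order.height (φ i ⊥) + Order.height (φ i ⊤)) ∧
      (∀ x : L, ∃! p : (Σ i : Fin t, Set (Fin (n i))), φ p.1 p.2 = x) :=
  packing_of_caseB (fun Y U E _ _ _ => caseB Y U E L L L) hat hr hn

end Pool.Agent.Helper88.RC
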