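import Pool.Agent.Helper88.RF.Fam

/-!
# MP_47cd0b: THEOREM D on cones from its two cases
-/

set_option autoImplicit false

namespace H20SW

open Finset Classical

namespace Cone

/-- the dense case on cones, `8 N ≤ a ^ 3 |J|` -/
def CaseA (Y U E G P R : Type) [Fintype Y] [Fintype U] [Fintype E] : Prop :=
  ∀ (C : Cone Y U E G P R) {a : ℕ}, 3000 ≤ a → a ^ 40 ≤ Fintype.card Y →
    Fintype.card Y ≤ 2 * a ^ 40 → C.s ≤ a ^ 34 → ∀ {J : Finset E} {α β : E → Y},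
    C.Fam (a ^ 19) a J α β → 8 * Fintype.card Y ≤ a ^ 3 * J.card → C.Good

/-- the dense case on cones, `a ^ 3 |J| < 8 N` -/
def CaseB (Y U E G P R : Type) [Fintype Y] [Fintype U] [Fintype E] : Prop :=
  ∀ (C : Cone Y U E G P R) {a : ℕ}, 3000 ≤ a → a ^ 40 ≤ Fintype.card Y →
    Fintype.card Y ≤ 2 * a ^ 40 → C.s ≤ a ^ 34 → ∀ {J : Finset E} {α β : E → Y},
    C.Fam (a ^ 19) a J α β → a ^ 3 * J.card < 8 * Fintype.card Y → C.Good

variable {Y U E G P R : Type} [Fintype Y] [Fintype U] [Fintype E]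

theorem good_of_cases (hA : CaseA Y U E G P R) (hB : CaseB Y U E G P R)
    (C : Cone Y U E G P R) {a : ℕ} (ha : 3000 ≤ a) (hN : a ^ 40 ≤ Fintype.card Y)
    (hN2 : Fintype.card Y ≤ 2 * a ^ 40) (hs : C.s ≤ a ^ 34) : C.Good := by
  obtain ⟨J, α, β, hJ⟩ := C.exists_fam (a ^ 19) a
  rcases le_or_gt (8 * Fintype.card Y) (a ^ 3 * J.card) with h | h
  · exact hA C ha hN hN2 hs hJ h
  · exact hB C ha hN hN2 hs hJ h

end Cone

end H20SW
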